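import Pool.Agent.Lib.MP_89fc28_gt.G.Final

/-!
# The homotopy type of the anti-Vietoris-Rips thickening of `S^n` changes at every `r_k`

Full positive answer of Q1 for all `n ≥ 2` and `2 ≤ k ≤ n`.
-/

set_option autoImplicit false

open Pool.Agent.AVG

namespace Pool.Agent.Results.MP_89fc28_gt.AVRChanges

/-- For all `2 ≤ k ≤ n` the homotopy type of the anti-Vietoris-Rips metric thickening of `S^n`
(the unit sphere of `ℝ^(n+1)`) changes at `r_k = arccos (-1/(k+1))`; more precisely the thickening
at the scale `r_k` is not homotopy equivalent to the thickening at any larger scale. -/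
theorem result (n k : ℕ) (hk : 2 ≤ k) (hkn : k ≤ n) :
    Changes (n + 1) (rk k) ∧
      ∀ r : ℝ, rk k < r → ¬ HEquiv (AVR (n + 1) r) (AVR (n + 1) (rk k)) := by
  refine ⟨changes hk hkn, fun r hr => ?_⟩
  rw [rk_eq] at hr ⊢
  exact not_hequiv (by omega) (by omega) hr

end Pool.Agent.Results.MP_89fc28_gt.AVRChanges
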